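import Pool.Agent.H242R3.ES.Stmts
import Pool.Agent.SphJam.Farkas

/-! Project H242-ES: `TaskC1` and `TaskC2`. -/

set_option autoImplicit false

open Finset
open scoped Classical

namespace Pool.Agent.H107R3.ES

open Pool.Agent.H242R3.ES

section

variable {ι E : Type} [Fintype ι] [AddCommGroup E] [Module ℝ E]

/-- a functional with prescribed values on an independent family -/
theorem exists_fun {S : Set ι} {V : ι → E} (h : LinearIndependent ℝ (fun i : S => V i)) (c : ι → ℝ) :
    ∃ f : E →ₗ[ℝ] ℝ, ∀ i ∈ S, f (V i) = c i := by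
  let f0 : Submodule.span ℝ (Set.range fun i : S => V i) →ₗ[ℝ] ℝ :=
    (Finsupp.linearCombination ℝ (fun i : S => c i)).comp h.repr
  obtain ⟨f, hf⟩ := LinearMap.exists_extend f0
  refine ⟨f, fun i hi => ?_⟩
  have h1 : (V i) ∈ Submodule.span ℝ (Set.range fun i : S => V i) :=
    Submodule.subset_span ⟨⟨i, hi⟩, rfl⟩
  have h2 := LinearMap.congr_fun hf ⟨V i, h1⟩
  rw [LinearMap.comp_apply, Submodule.subtype_apply] at h2
  rw [h2]
  simp only [f0, LinearMap.comp_apply]
  rw [h.repr_eq_single ⟨i, hi⟩ ⟨V i, h1⟩ rfl, Finsupp.linearCombination_single, one_smul]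

theorem c1 {V : ι → E} (hV : SC V) {S T : Set ι} (hS : Face V S) (hne : S ≠ Set.univ) (hT : T ⊆ S) :
    Face V T := by
  obtain ⟨f, hf⟩ := exists_fun (hV.simp S hS hne) (fun i => if i ∈ T then 0 else 1)
  obtain ⟨l, hl0, hl⟩ := hS
  let N : ℝ := 1 + ∑ k, |f (V k)| / l (V k)
  have hterm : ∀ k, 0 ≤ |f (V k)| / l (V k) := fun k => div_nonneg (abs_nonneg _) (hl0 k)
  have hN : ∀ k, k ∉ S → 0 < N * l (V k) + f (V k) := by
    intro k hk
    have h1 : 0 < l (V k) := lt_of_le_of_ne (hl0 k) (fun h => hk ((hl k).2 h.symm))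
    have h2 : |f (V k)| / l (V k) ≤ ∑ k, |f (V k)| / l (V k) :=
      Finset.single_le_sum (f := fun k => |f (V k)| / l (V k)) (fun k _ => hterm k) (Finset.mem_univ k)
    have h3 : (1 + |f (V k)| / l (V k)) * l (V k) ≤ N * l (V k) :=
      mul_le_mul_of_nonneg_right (by simp only [N]; linarith) h1.le
    have h4 : (1 + |f (V k)| / l (V k)) * l (V k) = l (V k) + |f (V k)| := by
      field_simp
    have h5 := neg_abs_le (f (V k))
    linarith
  refine ⟨N • l + f, ?_, ?_⟩
  · intro i
    rw [LinearMap.add_apply, LinearMap.smul_apply, smul_eq_mul]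
    by_cases hi : i ∈ S
    · rw [(hl i).1 hi, hf i hi]
      split_ifs <;> simp
    · exact (hN i hi).le
  · intro i
    rw [LinearMap.add_apply, LinearMap.smul_apply, smul_eq_mul]
    by_cases hi : i ∈ S
    · rw [(hl i).1 hi, hf i hi]
      split_ifs with h
      · simp [h]
      · simp [h]
    · constructor
      · intro h
        exact absurd (hT h) hi
      · intro h
        exact absurd h (hN i hi).ne'

theorem key {V : ι → E} (hV : SC V) {R : Set ι} {l : E →ₗ[ℝ] ℝ} (hl0 : ∀ i, 0 ≤ l (V i))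
    (hl : ∀ i, i ∈ R ↔ l (V i) = 0) (g : E →ₗ[ℝ] ℝ) (hg : ∀ k ∈ R, g (V k) = 0)
    (i : ι) (hi : g (V i) < 0) :
    ∃ t : ℝ, 0 < t ∧ ∃ k0, k0 ∉ R ∧ g (V k0) + t * l (V k0) = 0 ∧
      ((∃ k, g (V k) + t * l (V k) ≠ 0) → Face V (insert k0 R)) := by
  have hpos : ∀ k, k ∉ R → 0 < l (V k) := fun k hk =>
    lt_of_le_of_ne (hl0 k) (fun h => hk ((hl k).2 h.symm))
  have hiR : i ∉ R := fun h => by
    rw [hg i h] at hi
    exact lt_irrefl _ hi
  obtain ⟨k0, hk0, hmax⟩ := Finset.exists_max_image (Finset.univ.filter (fun k => k ∉ R))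
    (fun k => -g (V k) / l (V k)) ⟨i, by simp [hiR]⟩
  have hk0R : k0 ∉ R := (Finset.mem_filter.1 hk0).2
  have hmax' : ∀ k, k ∉ R → -g (V k) / l (V k) ≤ -g (V k0) / l (V k0) := fun k hk =>
    hmax k (by simp [hk])
  have ht : 0 < -g (V k0) / l (V k0) :=
    lt_of_lt_of_le (div_pos (by linarith) (hpos i hiR)) (hmax' i hiR)
  have hz : g (V k0) + -g (V k0) / l (V k0) * l (V k0) = 0 := by
    rw [div_mul_cancel₀ _ (hpos k0 hk0R).ne']
    ring
  refine ⟨-g (V k0) / l (V k0), ht, k0, hk0R, hz, ?_⟩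
  rintro ⟨k, hk⟩
  have hF : Face V {k | g (V k) + -g (V k0) / l (V k0) * l (V k) = 0} := by
    refine ⟨g + (-g (V k0) / l (V k0)) • l, ?_, ?_⟩
    · intro j
      rw [LinearMap.add_apply, LinearMap.smul_apply, smul_eq_mul]
      by_cases hj : j ∈ R
      · rw [hg j hj, (hl j).1 hj]
        simp
      · have h1 := hmax' j hj
        rw [div_le_iff₀ (hpos j hj)] at h1
        linarith
    · intro j
      rw [LinearMap.add_apply, LinearMap.smul_apply, smul_eq_mul]
      rfl
  refine c1 hV hF ?_ ?_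
  · intro h
    have : k ∈ {k | g (V k) + -g (V k0) / l (V k0) * l (V k) = 0} := by rw [h]; exact Set.mem_univ _
    exact hk this
  · intro j hj
    rcases Set.mem_insert_iff.1 hj with rfl | hj
    · exact hz
    · show g (V j) + -g (V k0) / l (V k0) * l (V j) = 0
      rw [hg j hj, (hl j).1 hj]
      simp

theorem ext_span {V : ι → E} (hV : SC V) {f : E →ₗ[ℝ] ℝ} (h : ∀ k, f (V k) = 0) : f = 0 := by
  apply LinearMap.ext_on_range (v := V) (by rw [hV.span])
  intro k
  rw [h k]
  rfl

/-- existence of neighbours -/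
theorem exists_nb [FiniteDimensional ℝ E] {V : ι → E} (hV : SC V) {R : Set ι} (hR : Face V R)
    (hd : Module.finrank ℝ (Submodule.span ℝ (V '' R)) + 2 ≤ Module.finrank ℝ E) :
    ∃ k, k ∉ R ∧ Face V (insert k R) := by
  obtain ⟨l, hl0, hl⟩ := hR
  -- a functional vanishing on `R`, not proportional to `l`
  obtain ⟨g, hg, hgl⟩ : ∃ g : E →ₗ[ℝ] ℝ, (∀ k ∈ R, g (V k) = 0) ∧ ∀ t : ℝ, g ≠ t • l := by
    let A := (Submodule.span ℝ (V '' R)).dualAnnihilator
    have h1 : Module.finrank ℝ A + Module.finrank ℝ (Submodule.span ℝ (V '' R)) =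
        Module.finrank ℝ E := by
      rw [add_comm]
      exact Subspace.finrank_add_finrank_dualAnnihilator_eq _
    have h2 : Module.finrank ℝ (Submodule.span ℝ ({l} : Set (Module.Dual ℝ E))) ≤ 1 := by
      refine (finrank_span_le_card _).trans ?_
      simp
    have h3 : ¬ A ≤ Submodule.span ℝ ({l} : Set (Module.Dual ℝ E)) := by
      intro h
      have := Submodule.finrank_mono h
      omega
    rw [SetLike.not_le_iff_exists] at h3
    obtain ⟨g, hgA, hg2⟩ := h3
    refine ⟨g, ?_, ?_⟩
    · intro k hk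
      exact (Submodule.mem_dualAnnihilator g).1 hgA _ (Submodule.subset_span ⟨k, hk, rfl⟩)
    · intro t ht
      apply hg2
      rw [ht]
      exact Submodule.smul_mem _ _ (Submodule.mem_span_singleton_self l)
  have main : ∀ g : E →ₗ[ℝ] ℝ, (∀ k ∈ R, g (V k) = 0) → (∀ t : ℝ, g ≠ t • l) →
      (∃ i, g (V i) < 0) → ∃ k, k ∉ R ∧ Face V (insert k R) := by
    rintro g hg hgl ⟨i, hi⟩
    obtain ⟨t, -, k0, hk0, -, h⟩ := key hV hl0 hl g hg i hi
    refine ⟨k0, hk0, h ?_⟩
    by_contra hcon
    push Not at hcon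
    apply hgl (-t)
    have := ext_span hV (f := g + t • l) (by
      intro k
      rw [LinearMap.add_apply, LinearMap.smul_apply, smul_eq_mul]
      exact hcon k)
    ext x
    have h5 := LinearMap.congr_fun this x
    rw [LinearMap.add_apply, LinearMap.smul_apply, smul_eq_mul, LinearMap.zero_apply] at h5
    rw [LinearMap.smul_apply, smul_eq_mul]
    linarith
  by_cases h : ∃ i, g (V i) < 0
  · exact main g hg hgl h
  · push Not at h
    refine main (-g) (fun k hk => by rw [LinearMap.neg_apply, hg k hk, neg_zero]) (fun t ht => ?_) ?_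
    · apply hgl (-t)
      ext x
      have h5 := LinearMap.congr_fun ht x
      rw [LinearMap.neg_apply, LinearMap.smul_apply, smul_eq_mul] at h5
      rw [LinearMap.smul_apply, smul_eq_mul]
      linarith
    · by_contra hcon
      push Not at hcon
      apply hgl 0
      rw [zero_smul]
      apply ext_span hV
      intro k
      have := hcon k
      rw [LinearMap.neg_apply] at this
      have := h k
      linarith

theorem c2 [FiniteDimensional ℝ E] {V : ι → E} (hV : SC V) {R : Set ι} (hR : Face V R)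
    (hd : Module.finrank ℝ (Submodule.span ℝ (V '' R)) + 2 ≤ Module.finrank ℝ E) (i : ι) :
    ∃ (y : E) (a : ι → ℝ), y ∈ Submodule.span ℝ (V '' R) ∧ (∀ k, 0 ≤ a k) ∧
    (∀ k, a k ≠ 0 → k ∉ R ∧ Face V (insert k R)) ∧ V i = y + ∑ k, a k • V k := by
  obtain ⟨k1, hk1, hk1F⟩ := exists_nb hV hR hd
  obtain ⟨l, hl0, hl⟩ := hR
  have hpos : ∀ k, k ∉ R → 0 < l (V k) := fun k hk =>
    lt_of_le_of_ne (hl0 k) (fun h => hk ((hl k).2 h.symm))
  set W := Submodule.span ℝ (V '' R) with hW
  have hlW : ∀ y ∈ W, l y = 0 := by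
    intro y hy
    have : W ≤ LinearMap.ker l := by
      rw [hW, Submodule.span_le]
      rintro _ ⟨k, hk, rfl⟩
      exact (hl k).1 hk
    exact this hy
  by_cases hiR : i ∈ R
  · refine ⟨V i, 0, Submodule.subset_span ⟨i, hiR, rfl⟩, fun _ => le_rfl, fun k hk => absurd rfl hk, ?_⟩
    simp
  let K := {k : ι // k ∉ R ∧ Face V (insert k R)}
  let ev : ι → Module.Dual ℝ (E ⧸ W) →ₗ[ℝ] ℝ := fun k => Module.Dual.eval ℝ (E ⧸ W) (W.mkQ (V k))
  rcases SphJam.farkas_strict (U := Module.Dual ℝ (E ⧸ W)) (K := Option K)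
    (fun o => o.elim (ev i) (fun k => - ev k.1)) (fun _ => 0) with ⟨a, ha⟩ | ⟨w, hw0, hw1, hw2, -⟩
  · exfalso
    let g : E →ₗ[ℝ] ℝ := a.comp W.mkQ
    have hg : ∀ k ∈ R, g (V k) = 0 := by
      intro k hk
      have h1 : V k ∈ W := Submodule.subset_span ⟨k, hk, rfl⟩
      have h2 : W.mkQ (V k) = 0 := by
        rw [Submodule.mkQ_apply]
        exact (Submodule.Quotient.mk_eq_zero W).2 h1
      show a (W.mkQ (V k)) = 0
      rw [h2, map_zero]
    have hgi : g (V i) < 0 := by
      have := ha none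
      simpa [ev, g] using this
    have hgk : ∀ k, k ∉ R → Face V (insert k R) → 0 < g (V k) := by
      intro k hk hkF
      have := ha (some ⟨k, hk, hkF⟩)
      simpa [ev, g] using this
    obtain ⟨t, ht, k0, hk0, hz, h⟩ := key hV hl0 hl g hg i hgi
    have h1 : ∃ k, g (V k) + t * l (V k) ≠ 0 := by
      refine ⟨k1, ?_⟩
      have h2 := hgk k1 hk1 hk1F
      have h3 : 0 < t * l (V k1) := mul_pos ht (hpos k1 hk1)
      exact (add_pos h2 h3).ne'
    have h2 := hgk k0 hk0 (h h1)
    have h3 : 0 < t * l (V k0) := mul_pos ht (hpos k0 hk0)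
    linarith
  · -- the relation
    have hrel : w none • V i - ∑ k : K, w (some k) • V k.1 ∈ W := by
      rw [← Submodule.Quotient.mk_eq_zero W, ← Submodule.mkQ_apply,
        ← Module.forall_dual_apply_eq_zero_iff ℝ]
      intro a
      have h1 := hw2 a
      rw [Fintype.sum_option] at h1
      simp only [Option.elim_none, Option.elim_some, LinearMap.neg_apply, ev,
        Module.Dual.eval_apply] at h1
      rw [map_sub, map_sub, map_smul, map_smul, map_sum, map_sum, smul_eq_mul]
      rw [← h1, sub_eq_add_neg, ← Finset.sum_neg_distrib]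
      congr 1
      refine Finset.sum_congr rfl (fun k _ => ?_)
      rw [map_smul, map_smul, smul_eq_mul]
      ring
    have hw3 : 0 < w none := by
      refine lt_of_le_of_ne (hw0 none) (fun h0 => ?_)
      have h1 := hlW _ hrel
      rw [← h0, zero_smul, zero_sub, map_neg, map_sum, neg_eq_zero] at h1
      rw [Finset.sum_eq_zero_iff_of_nonneg] at h1
      · obtain ⟨o, ho⟩ := hw1
        cases o with
        | none => exact ho h0.symm
        | some k =>
          have h2 := h1 k (Finset.mem_univ _)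
          rw [map_smul, smul_eq_mul] at h2
          rcases mul_eq_zero.1 h2 with h3 | h3
          · exact ho h3
          · exact (hpos k.1 k.2.1).ne' h3
      · intro k _
        rw [map_smul, smul_eq_mul]
        exact mul_nonneg (hw0 _) (hl0 _)
    let a : ι → ℝ := fun k => if h : k ∉ R ∧ Face V (insert k R) then w (some ⟨k, h⟩) / w none else 0
    have hasum : ∑ k, a k • V k = (w none)⁻¹ • ∑ k : K, w (some k) • V k.1 := by
      rw [Finset.smul_sum]
      have h1 : ∑ k, a k • V k = ∑ k ∈ Finset.univ.filter (fun k => k ∉ R ∧ Face V (insert k R)),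
          a k • V k := by
        symm
        apply Finset.sum_subset (Finset.subset_univ _)
        intro k _ hk
        have : ¬ (k ∉ R ∧ Face V (insert k R)) := fun h => hk (by simpa using h)
        simp only [a]
        rw [dif_neg this, zero_smul]
      rw [h1]
      rw [Finset.sum_subtype (p := fun k => k ∉ R ∧ Face V (insert k R)) _ (by simp)]
      refine Finset.sum_congr rfl (fun k _ => ?_)
      simp only [a]
      rw [dif_pos k.2, smul_smul]
      congr 1
      rw [div_eq_inv_mul]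
    refine ⟨V i - ∑ k, a k • V k, a, ?_, ?_, ?_, ?_⟩
    · rw [hasum]
      have h1 : V i - (w none)⁻¹ • ∑ k : K, w (some k) • V k.1 =
          (w none)⁻¹ • (w none • V i - ∑ k : K, w (some k) • V k.1) := by
        rw [smul_sub, smul_smul, inv_mul_cancel₀ hw3.ne', one_smul]
      rw [h1]
      exact W.smul_mem _ hrel
    · intro k
      simp only [a]
      split_ifs with h
      · exact div_nonneg (hw0 _) hw3.le
      · exact le_rfl
    · intro k hk
      by_contra h
      apply hk
      simp only [a]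
      rw [dif_neg h]
    · rw [sub_add_cancel]

end

theorem taskC1 : TaskC1 := fun _ _ _ _ _ _ _ hV _ _ hS hne hT => c1 hV hS hne hT

theorem taskC2 : TaskC2 := fun _ _ _ _ _ _ _ hV _ hR _ hd i => c2 hV hR hd i

theorem t : TaskC2 := taskC2

end Pool.Agent.H107R3.ES
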